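import Pool.Agent.Helper5.LCU.Stmts

/-! Rows MUL, CHS, GSW, PR, TUN, TSH of project LCU (MP_e96806_co). -/

set_option autoImplicit false

open Finset Pool.Agent.Helper89.UB Pool.Agent.Helper5.LCU

namespace Pool.Agent.Helper20.LCU

theorem st_MUL : ST_MUL := by
  intro a b ha hb
  refine ⟨fun i => mul_nonneg (ha.1 i) (hb.1 i), fun i j hij => ?_⟩
  calc a i * b i * (a (j + 2) * b (j + 2)) = (a i * a (j + 2)) * (b i * b (j + 2)) := by ring
    _ ≤ (a (i + 1) * a (j + 1)) * (b (i + 1) * b (j + 1)) :=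
        mul_le_mul (ha.2 i j hij) (hb.2 i j hij) (mul_nonneg (hb.1 _) (hb.1 _))
          (mul_nonneg (ha.1 _) (ha.1 _))
    _ = a (i + 1) * b (i + 1) * (a (j + 1) * b (j + 1)) := by ring

theorem st_CHS : ST_CHS := by
  intro n
  refine ⟨fun i => Nat.cast_nonneg _, fun i j hij => ?_⟩
  show (n.choose i : ℝ) * (n.choose (j + 2) : ℝ) ≤ (n.choose (i + 1) : ℝ) * (n.choose (j + 1) : ℝ)
  norm_cast
  have h1 := Nat.choose_succ_right_eq n i
  have h2 := Nat.choose_succ_right_eq n (j + 1)
  have h3 : (i + 1) * (n - (j + 1)) ≤ (n - i) * (j + 2) := by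
    calc (i + 1) * (n - (j + 1)) ≤ (j + 2) * (n - i) := Nat.mul_le_mul (by omega) (by omega)
      _ = (n - i) * (j + 2) := Nat.mul_comm _ _
  have h4 : (n.choose i * n.choose (j + 2)) * ((i + 1) * (j + 2)) ≤
      (n.choose (i + 1) * n.choose (j + 1)) * ((i + 1) * (j + 2)) := by
    calc (n.choose i * n.choose (j + 2)) * ((i + 1) * (j + 2))
        = n.choose i * (i + 1) * (n.choose (j + 1 + 1) * (j + 1 + 1)) := by ring
      _ = n.choose i * n.choose (j + 1) * ((i + 1) * (n - (j + 1))) := by rw [h2]; ring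
      _ ≤ n.choose i * n.choose (j + 1) * ((n - i) * (j + 2)) := Nat.mul_le_mul_left _ h3
      _ = (n.choose i * (n - i)) * n.choose (j + 1) * (j + 2) := by ring
      _ = (n.choose (i + 1) * (i + 1)) * n.choose (j + 1) * (j + 2) := by rw [h1]
      _ = _ := by ring
  exact Nat.le_of_mul_le_mul_right h4 (by positivity)

theorem st_GSW : ST_GSW := by
  intro a b n
  induction n with
  | zero => intro p q; simp only [GA]; ring
  | succ n ih =>
    intro p q
    simp only [GA]
    rw [ih, ih, ih]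
    ring

theorem st_PR (hPLC : ST_PLC) (hPNZ : ST_PNZ) (hLCZ : ST_LCZ) (hGP : ST_GP) : ST_PR := by
  intro a b ha hb
  exact hLCZ _ (fun m => (hGP a b ha.1 hb.1 m 0 0).1) (fun m => hPLC a b ha hb m)
    (fun x y z h1 h2 h3 h4 => hPNZ a b ha hb x y z h1 h2 h3 h4)

theorem st_TUN : ST_TUN := by
  intro x y h
  funext q
  induction q using Nat.strong_induction_on with
  | _ q ih =>
    have h1 := h q
    unfold TT at h1
    rw [sum_range_succ, sum_range_succ] at h1
    have h2 : ∑ m ∈ range q, (q.choose m : ℝ) * x m = ∑ m ∈ range q, (q.choose m : ℝ) * y m :=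
      sum_congr rfl fun m hm => by rw [ih m (mem_range.1 hm)]
    rw [h2, Nat.choose_self, Nat.cast_one, one_mul, one_mul] at h1
    exact add_left_cancel h1

theorem st_TSH : ST_TSH := by
  intro a q
  unfold TT
  rw [sum_range_succ']
  have h1 : ∑ k ∈ range (q + 1), ((q + 1).choose (k + 1) : ℝ) * a (k + 1) =
      ∑ k ∈ range (q + 1), (q.choose k : ℝ) * a (k + 1) +
        ∑ k ∈ range (q + 1), (q.choose (k + 1) : ℝ) * a (k + 1) := by
    rw [← sum_add_distrib]
    refine sum_congr rfl fun k _ => ?_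
    rw [Nat.choose_succ_succ, Nat.cast_add]
    ring
  have h2 : ∑ k ∈ range (q + 1), (q.choose (k + 1) : ℝ) * a (k + 1) =
      ∑ k ∈ range q, (q.choose (k + 1) : ℝ) * a (k + 1) := by
    rw [sum_range_succ, Nat.choose_succ_self, Nat.cast_zero, zero_mul, add_zero]
  have h3 : ∑ k ∈ range (q + 1), (q.choose k : ℝ) * a k =
      ∑ k ∈ range q, (q.choose (k + 1) : ℝ) * a (k + 1) + (q.choose 0 : ℝ) * a 0 :=
    sum_range_succ' _ _
  have h4 : ∑ m ∈ range (q + 1), (q.choose m : ℝ) * (a m + a (m + 1)) =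
      ∑ k ∈ range (q + 1), (q.choose k : ℝ) * a k +
        ∑ k ∈ range (q + 1), (q.choose k : ℝ) * a (k + 1) := by
    rw [← sum_add_distrib]
    exact sum_congr rfl fun k _ => by ring
  rw [h1, h2, h4, h3, Nat.choose_zero_right, Nat.choose_zero_right]
  ring

end Pool.Agent.Helper20.LCU
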